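import Pool.Agent.H19.TR.Lines

/-!
MP_b12e0e_ag (EveryOrder): nine lines of product tensors, three in each direction, which span the
real tensors of format `3 x 3 x 3` (the determinant is `1` or `-1`).
-/

set_option autoImplicit false

open Set Function Module Pool.Agent.H93.TR Pool.Agent.H19.TR

namespace Pool.Agent.H24.TR

/-- the fixed vectors of the nine lines -/
def linesQ : List (List ℤ) := [[0, 0, 0],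
  [0, 1, 0],
  [0, -1, 1],
  [0, 0, 0],
  [1, 1, 1],
  [0, 1, 0],
  [0, 0, 0],
  [-1, -1, 0],
  [0, 0, 1],
  [-1, 1, 0],
  [0, 0, 0],
  [-1, 0, 0],
  [1, 0, 0],
  [0, 0, 0],
  [1, 1, 1],
  [0, 1, 0],
  [0, 0, 0],
  [-1, 0, 1],
  [0, -1, 1],
  [0, 0, 1],
  [0, 0, 0],
  [1, 0, 1],
  [0, -1, 1],
  [0, 0, 0],
  [0, 0, -1],
  [1, 0, 1],
  [0, 0, 0]]

/-- the inverse matrix -/
def linesC : List (List ℤ) := [[-1, 0, -2, -2, 0, -2, 2, 1, 0, -1, -1, -2, 2, 1, 2, 1, 1, 2, 0, 0, 2, 0, 0, -2, 0, -2, 0],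
  [1, 0, 1, 1, 0, 1, 0, 0, 0, 0, 0, 1, 0, 0, -1, 0, 0, -1, 0, 0, -1, 0, 0, 1, 0, 1, 0],
  [0, 0, 1, 1, 0, 1, -2, -1, 0, 1, 1, 1, -1, -1, -1, -1, -1, -1, 0, 0, -1, 0, 0, 1, 0, 1, 0],
  [1, 0, 2, 2, 0, 2, -2, -2, 0, 2, 2, 2, -2, -1, -2, -2, -2, -2, 0, 0, -2, 0, 0, 2, 0, 2, 0],
  [-1, 0, -1, -1, 0, -1, 1, 1, 0, -1, -1, -1, 1, 1, 1, 1, 1, 1, 0, 0, 1, 0, 0, -1, 0, -1, 0],
  [0, 0, -1, -1, 0, -1, 1, 1, 0, -1, -1, -1, 1, 1, 1, 1, 1, 1, 0, 0, 1, 0, 0, -1, 0, -1, 0],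
  [0, 0, 1, 0, 0, 1, 0, 0, 1, 0, 0, 1, 0, 0, 0, 0, 0, -1, 0, 0, -1, 0, 0, 0, 0, 1, -1],
  [0, 0, 0, 1, 0, 0, -1, -1, 0, 1, 1, 0, -1, -1, 0, -1, -1, 0, 0, 0, 0, 0, 0, 0, 0, 0, 0],
  [0, 0, -1, -1, 0, -1, 1, 1, -1, -1, -1, -1, 1, 1, 1, 1, 1, 1, 0, 0, 1, 0, 0, 0, 0, -1, 1],
  [-1, 0, -2, -2, 0, -2, 2, 1, 0, -2, -1, -2, 2, 1, 2, 1, 1, 2, 0, 0, 2, 0, 0, -2, 0, -2, 0],
  [0, 1, -1, 0, 1, -2, 0, 0, 0, 0, 1, -1, 0, -1, 1, 0, -1, 1, 0, 1, 1, 0, -1, -1, 0, -2, 0],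
  [-1, 0, -2, -2, 0, -2, 2, 1, 0, -2, -1, -2, 2, 1, 2, 2, 1, 2, 0, 0, 2, 0, 0, -2, 0, -2, 0],
  [1, 0, 2, 2, 0, 2, -2, -2, 0, 2, 1, 2, -2, -1, -2, -2, -2, -2, 0, 0, -2, 0, 0, 2, 0, 2, 0],
  [1, -1, 2, 2, 0, 2, -2, -2, 0, 2, 1, 2, -2, -1, -2, -2, -1, -2, 0, 0, -2, 0, 0, 2, 0, 2, 0],
  [1, 0, 2, 2, 0, 2, -2, -2, 0, 2, 1, 2, -2, -1, -2, -2, -1, -2, 0, 0, -2, 0, 0, 2, 0, 2, 0],
  [0, 0, 1, 0, 0, 1, 0, 0, 1, 0, 0, 0, 0, 0, 0, 0, 0, -1, 0, 0, -1, 0, 0, 0, 0, 1, -1],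
  [-1, 0, -1, -2, 0, 0, 2, 2, 0, -2, -2, -1, 2, 2, 1, 2, 2, 1, 0, -1, 1, 0, 1, -1, 0, 0, 0],
  [0, 0, 1, 0, 0, 1, 0, 0, 1, 0, 0, 0, 0, 0, 0, 0, 0, 0, 0, 0, -1, 0, 0, 0, 0, 1, -1],
  [0, 0, -1, 0, 0, -1, 0, 0, -1, 0, 0, 0, 0, 0, 0, 0, 0, 1, -1, 0, 1, 0, 0, 0, -1, -1, 1],
  [1, 0, 1, 2, 0, 0, -2, -2, 0, 2, 2, 1, -2, -2, -1, -2, -2, -1, 0, 0, -1, 0, -1, 1, 0, -1, 0],
  [0, 0, -1, 0, 0, -1, 0, 0, -1, 0, 0, 0, 0, 0, 0, 0, 0, 0, 0, 0, 0, 0, 0, 0, 0, -1, 0],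
  [-1, 0, 0, -2, 0, 0, 2, 2, 2, -2, -2, -1, 2, 1, 2, 2, 2, 0, 1, 0, 0, -1, 0, -2, 0, 0, -2],
  [0, 0, 0, 0, 0, 1, 0, 0, 0, 0, 0, 0, 0, 0, 0, 0, 0, 0, 0, 0, 0, 0, 0, 0, 0, 1, 0],
  [0, 0, 1, 0, 0, 1, 0, 0, 0, 0, 0, 0, 0, 0, 0, 0, 0, 0, 0, 0, 0, 0, 0, 0, 0, 1, 0],
  [0, 0, 1, 0, 0, 1, 0, 0, 1, 0, 0, 0, 0, 0, 0, 0, 0, -1, 1, 0, -1, 0, 0, 0, 0, 1, -1],
  [-1, 0, -1, -2, 0, 0, 2, 2, 0, -2, -2, -1, 2, 2, 1, 2, 2, 1, 0, 0, 1, 0, 1, -1, 0, 0, 0],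
  [0, 0, 1, 0, 0, 1, 0, 0, 1, 0, 0, 0, 0, 0, 0, 0, 0, 0, 0, 0, 0, 0, 0, 0, 0, 1, -1]]

/-- entry `a` of the vector in the factor `i'` of the line `j` in direction `i` -/
def lq (i j i' a : Fin 3) : ℤ :=
  (linesQ.getD (9 * (i : ℕ) + 3 * (j : ℕ) + (i' : ℕ)) []).getD (a : ℕ) 0

/-- coefficients -/
def lc (z0 z1 z2 i j t : Fin 3) : ℤ :=
  (linesC.getD (9 * (z0 : ℕ) + 3 * (z1 : ℕ) + (z2 : ℕ)) []).getD
    (9 * (i : ℕ) + 3 * (j : ℕ) + (t : ℕ)) 0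

/-- the entry of a factor -/
def le (i j t i' a : Fin 3) : ℤ := if i' = i then (if a = t then 1 else 0) else lq i j i' a

theorem lines_dec : ∀ z0 z1 z2 x0 x1 x2 : Fin 3,
    (∑ i : Fin 3, ∑ j : Fin 3, ∑ t : Fin 3,
      lc z0 z1 z2 i j t * (le i j t 0 x0 * le i j t 1 x1 * le i j t 2 x2)) =
      if z0 = x0 ∧ z1 = x1 ∧ z2 = x2 then 1 else 0 := by
  decide +kernel

/-- **nine lines span the tensors of format `3 x 3 x 3`** -/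
theorem lines_three : Lines (ι := Fin 3) (fun _ => Fin 3) (fun _ => Fin 3) := by
  refine ⟨fun i j i' a => ((lq i j i' a : ℤ) : ℝ), fun z => ?_⟩
  have hrow : ∀ (i j t : Fin 3) (x : Fin 3 → Fin 3),
      sg (update (fun (i' a : Fin 3) => ((lq i j i' a : ℤ) : ℝ)) i
        (Pi.single t 1)) x =
        ((le i j t 0 (x 0) * le i j t 1 (x 1) * le i j t 2 (x 2) : ℤ) : ℝ) := by
    intro i j t x
    have h1 : ∀ i' : Fin 3, update (fun (i' a : Fin 3) => ((lq i j i' a : ℤ) : ℝ)) i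
        (Pi.single t 1) i' (x i') = ((le i j t i' (x i') : ℤ) : ℝ) := by
      intro i'
      by_cases h : i' = i
      · subst h
        rw [update_self, le, if_pos rfl, Pi.single_apply]
        split_ifs <;> simp
      · rw [update_of_ne h, le, if_neg h]
    unfold sg
    rw [Fin.prod_univ_three, h1, h1, h1]
    push_cast
    ring
  have hz : (sg (bs z) : Ten (fun _ : Fin 3 => Fin 3)) =
      ∑ i : Fin 3, ∑ j : Fin 3, ∑ t : Fin 3, ((lc (z 0) (z 1) (z 2) i j t : ℤ) : ℝ) •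
        (sg (update (fun (i' a : Fin 3) => ((lq i j i' a : ℤ) : ℝ)) i
          (Pi.single t 1)) : Ten (fun _ : Fin 3 => Fin 3)) := by
    funext x
    rw [sg_bs_apply]
    simp only [Finset.sum_apply, Pi.smul_apply, smul_eq_mul, hrow]
    have h1 := congrArg (fun n : ℤ => (n : ℝ)) (lines_dec (z 0) (z 1) (z 2) (x 0) (x 1) (x 2))
    have h2 : (z 0 = x 0 ∧ z 1 = x 1 ∧ z 2 = x 2) ↔ z = x := by
      constructor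
      · rintro ⟨h0, h1, h2⟩
        funext i
        fin_cases i
        · exact h0
        · exact h1
        · exact h2
      · rintro rfl
        exact ⟨rfl, rfl, rfl⟩
    simp only [h2] at h1
    have h3 : (((if z = x then (1 : ℤ) else 0) : ℤ) : ℝ) = if z = x then (1 : ℝ) else 0 := by
      split_ifs <;> simp
    rw [← h3]
    refine h1.symm.trans ?_
    push_cast
    rfl
  rw [hz]
  refine Submodule.sum_mem _ fun i _ => Submodule.sum_mem _ fun j _ =>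
    Submodule.sum_mem _ fun t _ => Submodule.smul_mem _ _ (Submodule.subset_span ?_)
  exact ⟨i, j, Pi.single t 1, rfl⟩

end Pool.Agent.H24.TR
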