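import Mathlib

set_option autoImplicit false

/-!
# Gluing lemmas: many factors and large dimensions
-/

namespace Pool.Agent.H24.TR

open Filter Topology

/-- Polynomial against exponential, uniformly in the base `a ≥ 2`. -/
theorem glue_key (k C : ℕ) : ∃ n₀ : ℕ, 1 ≤ n₀ ∧ ∀ n : ℕ, n₀ ≤ n → ∀ a : ℕ, 2 ≤ a →
    (n * C * a) ^ (4 * k) ≤ a ^ n := by
  have h := tendsto_pow_const_div_const_pow_of_one_lt (4 * k) (one_lt_two : (1 : ℝ) < 2)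
  have hδ : (0 : ℝ) < 1 / ((2 * C + 1 : ℝ) ^ (4 * k)) := by positivity
  obtain ⟨n1, hn1⟩ := (eventually_atTop.1 (h.eventually (gt_mem_nhds hδ)))
  refine ⟨max (max n1 (4 * k)) 1, le_max_right _ _, fun n hn a ha => ?_⟩
  have hn1' : n1 ≤ n := le_trans (le_trans (le_max_left _ _) (le_max_left _ _)) hn
  have hn2 : 4 * k ≤ n := le_trans (le_trans (le_max_right _ _) (le_max_left _ _)) hn
  have h1 := hn1 n hn1'
  have h2 : (n : ℝ) ^ (4 * k) * (2 * C + 1 : ℝ) ^ (4 * k) < 2 ^ n := by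
    rw [div_lt_div_iff₀ (by positivity) (by positivity)] at h1
    linarith
  have h3 : n ^ (4 * k) * (2 * C + 1) ^ (4 * k) < 2 ^ n := by exact_mod_cast h2
  have h4 : (n * C) ^ (4 * k) * 2 ^ (4 * k) ≤ 2 ^ (n - 4 * k) * 2 ^ (4 * k) := by
    rw [← pow_add, Nat.sub_add_cancel hn2]
    refine le_trans ?_ h3.le
    rw [← mul_pow, ← mul_pow]
    apply Nat.pow_le_pow_left
    nlinarith
  have h5 : (n * C) ^ (4 * k) ≤ 2 ^ (n - 4 * k) :=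
    Nat.le_of_mul_le_mul_right h4 (by positivity)
  calc (n * C * a) ^ (4 * k) = (n * C) ^ (4 * k) * a ^ (4 * k) := mul_pow _ _ _
    _ ≤ a ^ (n - 4 * k) * a ^ (4 * k) :=
        Nat.mul_le_mul_right _ (h5.trans (Nat.pow_le_pow_left ha _))
    _ = a ^ n := by rw [← pow_add, Nat.sub_add_cancel hn2]

/-- The choice of `k`. -/
theorem glue_k (ε : ℝ) (hε : 0 < ε) : ∃ k : ℕ, 4 ≤ k ∧ 2 / (k : ℝ) ^ 2 ≤ ε := by
  refine ⟨max 4 ⌈2 / ε⌉₊, le_max_left _ _, ?_⟩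
  set k := max 4 ⌈2 / ε⌉₊
  have hk4 : (4 : ℝ) ≤ (k : ℝ) := by exact_mod_cast (le_max_left 4 ⌈2 / ε⌉₊)
  have hk2 : 2 / ε ≤ (k : ℝ) :=
    (Nat.le_ceil _).trans (by exact_mod_cast (le_max_right 4 ⌈2 / ε⌉₊))
  rw [div_le_iff₀ (by positivity)]
  have h1 : 2 ≤ (k : ℝ) * ε := by
    rw [div_le_iff₀ hε] at hk2
    exact hk2
  nlinarith

theorem glue (P : ℕ → ℕ → ℝ → Prop) (L : ℕ → ℕ → ℝ) (hL : ∀ n q, 0 ≤ L n q)
    (hmono : ∀ n q a b, a ≤ b → P n q a → P n q b)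
    (h1 : ∀ n q : ℕ, 6 ≤ n → 20 ≤ q → P n q ((1 + 5 * (n : ℝ) ^ 2 / q) * L n q))
    (h2 : ∀ n k q : ℕ, 1 ≤ n → 4 ≤ k → 2 ≤ q → (1 + n * (q - 1)) ^ (4 * k) ≤ q ^ n →
      P n q ((1 + 2 / (k : ℝ) ^ 2) * L n q)) (ε : ℝ) (hε : 0 < ε) :
    ∃ N₀ : ℕ, ∀ n q : ℕ, 6 ≤ n → 2 ≤ q → N₀ ≤ q ^ n → P n q ((1 + ε) * L n q) := by
  obtain ⟨k, hk4, hk⟩ := glue_k ε hε
  obtain ⟨n₀, hn₀1, hn₀⟩ := glue_key k 1
  set q₀ : ℕ := max 20 ⌈5 * (n₀ : ℝ) ^ 2 / ε⌉₊ with hq₀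
  refine ⟨q₀ ^ n₀, fun n q hn hq hN => ?_⟩
  rcases le_or_gt n₀ n with hc | hc
  · refine hmono n q _ _ ?_ (h2 n k q (by omega) hk4 hq ?_)
    · have := hL n q
      gcongr
    · have h3 := hn₀ n hc q hq
      rw [mul_one] at h3
      refine le_trans (Nat.pow_le_pow_left ?_ _) h3
      obtain ⟨q', rfl⟩ : ∃ q', q = q' + 1 := ⟨q - 1, by omega⟩
      rw [Nat.add_sub_cancel, Nat.mul_add, Nat.mul_one]
      omega
  · have hqq : q₀ ≤ q := by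
      by_contra hlt
      push Not at hlt
      have h3 : q ^ n ≤ q ^ n₀ := Nat.pow_le_pow_right (by omega) hc.le
      have h4 : q ^ n₀ < q₀ ^ n₀ := Nat.pow_lt_pow_left hlt (by omega)
      omega
    have h20 : 20 ≤ q := le_trans (le_max_left _ _) hqq
    have hqr : 5 * (n₀ : ℝ) ^ 2 / ε ≤ (q : ℝ) :=
      (Nat.le_ceil _).trans (by exact_mod_cast (le_trans (le_max_right _ _) hqq))
    have hq0 : (0 : ℝ) < q := by exact_mod_cast (by omega : 0 < q)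
    have hnn : (n : ℝ) ≤ n₀ := by exact_mod_cast hc.le
    refine hmono n q _ _ ?_ (h1 n q hn h20)
    have h5 : 5 * (n : ℝ) ^ 2 / q ≤ ε := by
      rw [div_le_iff₀ hε] at hqr
      rw [div_le_iff₀ hq0]
      have : (n : ℝ) ^ 2 ≤ (n₀ : ℝ) ^ 2 := by gcongr
      nlinarith
    have := hL n q
    gcongr

theorem glue5 (P : ℕ → ℕ → ℝ → Prop) (L : ℕ → ℕ → ℝ) (hL : ∀ n q, 0 ≤ L n q)
    (hmono : ∀ n q a b, a ≤ b → P n q a → P n q b)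
    (h1 : ∀ n q : ℕ, 6 ≤ n → 20 ≤ q → P n q ((1 + 5 * (n : ℝ) ^ 2 / q) * L n q))
    (h5 : ∀ q : ℕ, 10000 ≤ q → P 5 q ((1 + 50 / Real.sqrt q) * L 5 q))
    (h2 : ∀ n k q : ℕ, 1 ≤ n → 4 ≤ k → 2 ≤ q → (1 + n * (q - 1)) ^ (4 * k) ≤ q ^ n →
      P n q ((1 + 2 / (k : ℝ) ^ 2) * L n q)) (ε : ℝ) (hε : 0 < ε) :
    ∃ N₀ : ℕ, ∀ n q : ℕ, 5 ≤ n → 2 ≤ q → N₀ ≤ q ^ n → P n q ((1 + ε) * L n q) := by
  obtain ⟨N₁, hN₁⟩ := glue P L hL hmono h1 h2 ε hε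
  set q₁ : ℕ := max 10000 ⌈(50 / ε) ^ 2⌉₊ with hq₁
  refine ⟨max N₁ (q₁ ^ 5), fun n q hn hq hN => ?_⟩
  rcases Nat.lt_or_ge 5 n with hc | hc
  · exact hN₁ n q hc hq (le_trans (le_max_left _ _) hN)
  · obtain rfl : n = 5 := by omega
    have hN' : q₁ ^ 5 ≤ q ^ 5 := le_trans (le_max_right _ _) hN
    have hqq : q₁ ≤ q := (Nat.pow_le_pow_iff_left (by norm_num)).1 hN'
    have h3 : 10000 ≤ q := le_trans (le_max_left _ _) hqq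
    have hqr : (50 / ε) ^ 2 ≤ (q : ℝ) :=
      (Nat.le_ceil _).trans (by exact_mod_cast (le_trans (le_max_right _ _) hqq))
    have hs : 50 / ε ≤ Real.sqrt q := Real.le_sqrt_of_sq_le hqr
    have hs0 : 0 < Real.sqrt q := lt_of_lt_of_le (by positivity) hs
    refine hmono 5 q _ _ ?_ (h5 q h3)
    have h6 : 50 / Real.sqrt q ≤ ε := by
      rw [div_le_iff₀ hε] at hs
      rw [div_le_iff₀ hs0]
      linarith
    have := hL 5 q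
    gcongr

end Pool.Agent.H24.TR
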