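import Mathlib
import Pool.Agent.H24.TR.Glue

set_option autoImplicit false

/-!
# Gluing lemma: three large factors
-/

namespace Pool.Agent.H24.TR

open Finset

theorem glue_three (P : (n : ℕ) → (Fin n → ℕ) → ℝ → Prop) (L : (n : ℕ) → (Fin n → ℕ) → ℝ)
    (hL : ∀ n d, L n d = (∏ i, (d i : ℝ)) / (∑ i, ((d i : ℝ) - 1) + 1))
    (hmono : ∀ n d a b, a ≤ b → P n d a → P n d b)
    (htriv : ∀ (n : ℕ) (d : Fin n → ℕ) (i : Fin n), (∀ j, 2 ≤ d j) → P n d ((∏ j, (d j : ℝ)) / d i))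
    (hmain : ∀ ε : ℝ, 0 < ε → ∃ K m₀ : ℕ, ∀ (n : ℕ) (d : Fin n → ℕ) (i j k : Fin n), i ≠ j → i ≠ k → j ≠ k →
      (∀ l, 2 ≤ d l) → (∀ l, l ≠ i → l ≠ j → l ≠ k → d l ≤ d k) → d k ≤ d j → d j ≤ d i → m₀ ≤ d k →
      K * (1 + ∑ l, (d l - 1)) ≤ d j * d k → P n d ((1 + ε) * L n d))
    (hmany : ∀ (n k : ℕ) (d : Fin n → ℕ), 1 ≤ n → 4 ≤ k → (∀ i, 2 ≤ d i) →
      (1 + ∑ i, (d i - 1)) ^ (4 * k) ≤ ∏ i, d i → P n d ((1 + 2 / (k : ℝ) ^ 2) * L n d))
    (ε : ℝ) (hε : 0 < ε) : ∃ m : ℕ, ∀ (n : ℕ) (d : Fin n → ℕ) (i j k : Fin n), i ≠ j → i ≠ k → j ≠ k →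
      (∀ l, 2 ≤ d l) → m ≤ d i → m ≤ d j → m ≤ d k → P n d ((1 + ε) * L n d) := by
  classical
  obtain ⟨K, m₀, hmain⟩ := hmain ε hε
  obtain ⟨k, hk4, hk⟩ := glue_k ε hε
  set E : ℝ := 1 + 1 / ε with hE
  have hE1 : 1 ≤ E := by
    have : 0 < 1 / ε := by positivity
    linarith
  set K' : ℝ := ((K : ℝ) + 1) * E with hK'
  have hK'1 : 1 ≤ K' := by
    have : (0 : ℝ) ≤ K := Nat.cast_nonneg K
    nlinarith
  set C : ℕ := ⌈E * (2 * K')⌉₊ with hC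
  have hCr : E * (2 * K') ≤ (C : ℝ) := Nat.le_ceil _
  have hC1 : 1 ≤ C := by
    have : (1 : ℝ) ≤ C := by nlinarith
    exact_mod_cast this
  obtain ⟨n₀, hn₀1, hn₀⟩ := glue_key (2 * k) C
  refine ⟨max (max m₀ ⌈2 * K'⌉₊) ⌈2 * K' * n₀⌉₊, ?_⟩
  set m : ℕ := max (max m₀ ⌈2 * K'⌉₊) ⌈2 * K' * n₀⌉₊ with hm
  intro n d i j k0 hij hik hjk hd hi hj hk0
  have hex : ∀ p q : Fin n, ∃ l, l ≠ p ∧ l ≠ q ∧ m ≤ d l := by
    intro p q
    by_cases h1 : i ≠ p ∧ i ≠ q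
    · exact ⟨i, h1.1, h1.2, hi⟩
    by_cases h2 : j ≠ p ∧ j ≠ q
    · exact ⟨j, h2.1, h2.2, hj⟩
    refine ⟨k0, ?_, ?_, hk0⟩
    · rintro rfl
      have e1 : i = q := by
        by_contra h
        exact h1 ⟨hik, h⟩
      have e2 : j = q := by
        by_contra h
        exact h2 ⟨hjk, h⟩
      exact hij (e1.trans e2.symm)
    · rintro rfl
      have e1 : i = p := by
        by_contra h
        exact h1 ⟨h, hik⟩
      have e2 : j = p := by
        by_contra h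
        exact h2 ⟨h, hjk⟩
      exact hij (e1.trans e2.symm)
  obtain ⟨i1, -, hi1⟩ := Finset.exists_max_image (univ : Finset (Fin n)) d ⟨i, mem_univ _⟩
  obtain ⟨l1, hl1, -, -⟩ := hex i1 i1
  obtain ⟨j1, hj1m, hj1⟩ := Finset.exists_max_image ((univ : Finset (Fin n)).erase i1) d
    ⟨l1, mem_erase.2 ⟨hl1, mem_univ _⟩⟩
  obtain ⟨l2, hl2, hl2', hl2m⟩ := hex i1 j1
  have hl2mem : l2 ∈ ((univ : Finset (Fin n)).erase i1).erase j1 :=
    mem_erase.2 ⟨hl2', mem_erase.2 ⟨hl2, mem_univ _⟩⟩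
  obtain ⟨k1, hk1m, hk1⟩ := Finset.exists_max_image
    (((univ : Finset (Fin n)).erase i1).erase j1) d ⟨l2, hl2mem⟩
  have hji : j1 ≠ i1 := (mem_erase.1 hj1m).1
  have hkj : k1 ≠ j1 := (mem_erase.1 hk1m).1
  have hki : k1 ≠ i1 := (mem_erase.1 (mem_erase.1 hk1m).2).1
  have hcm : m ≤ d k1 := hl2m.trans (hk1 l2 hl2mem)
  have hcb : d k1 ≤ d j1 := hj1 k1 (mem_erase.1 hk1m).2
  have hba : d j1 ≤ d i1 := hi1 j1 (mem_univ _)
  have hothers : ∀ l, l ≠ i1 → l ≠ j1 → d l ≤ d k1 := fun l h1 h2 =>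
    hk1 l (mem_erase.2 ⟨h2, mem_erase.2 ⟨h1, mem_univ _⟩⟩)
  have hm0 : m₀ ≤ d k1 := (le_trans (le_max_left _ _) (le_max_left _ _)).trans hcm
  by_cases hcase : K * (1 + ∑ l, (d l - 1)) ≤ d j1 * d k1
  · exact hmain n d i1 j1 k1 hji.symm hki.symm hkj.symm hd
      (fun l h1 h2 _ => hothers l h1 h2) hcb hba hm0 hcase
  -- real quantities
  have hd1 : ∀ l, ((d l - 1 : ℕ) : ℝ) = (d l : ℝ) - 1 := by
    intro l
    rw [Nat.cast_sub (by linarith [hd l]), Nat.cast_one]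
  set s' : ℝ := ∑ l ∈ univ.erase i1, ((d l : ℝ) - 1) with hs'
  have hS : ∑ l, ((d l : ℝ) - 1) = ((d i1 : ℝ) - 1) + s' :=
    (Finset.add_sum_erase univ (fun l => (d l : ℝ) - 1) (mem_univ i1)).symm
  have hSn : ((1 + ∑ l, (d l - 1) : ℕ) : ℝ) = (d i1 : ℝ) + s' := by
    push_cast
    simp only [hd1]
    rw [hS]
    ring
  have hs'0 : 0 ≤ s' := Finset.sum_nonneg fun l _ => by
    have : (2 : ℝ) ≤ d l := by exact_mod_cast hd l
    linarith
  have ha0 : (2 : ℝ) ≤ d i1 := by exact_mod_cast hd i1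
  have hprod0 : 0 ≤ ∏ l, (d l : ℝ) := Finset.prod_nonneg fun l _ => Nat.cast_nonneg _
  have hLv : L n d = (∏ l, (d l : ℝ)) / ((d i1 : ℝ) + s') := by
    rw [hL, hS]
    congr 1
    ring
  have hL0 : 0 ≤ L n d := by
    rw [hLv]
    exact div_nonneg hprod0 (by linarith)
  by_cases hcase2 : s' ≤ ε * d i1
  · refine hmono n d _ _ ?_ (htriv n d i1 hd)
    rw [hLv, ← mul_div_assoc, div_le_div_iff₀ (by linarith) (by linarith)]
    have h1 : (∏ l, (d l : ℝ)) * ((d i1 : ℝ) + s') ≤ (∏ l, (d l : ℝ)) * ((1 + ε) * d i1) := by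
      refine mul_le_mul_of_nonneg_left ?_ hprod0
      linarith
    linarith
  -- many factors
  push Not at hcase hcase2
  have hcaser : (d j1 : ℝ) * d k1 < K * ((d i1 : ℝ) + s') := by
    rw [← hSn]
    exact_mod_cast hcase
  have hb0 : (2 : ℝ) ≤ d j1 := by exact_mod_cast hd j1
  have hc0 : (2 : ℝ) ≤ d k1 := by exact_mod_cast hd k1
  have hSE : (d i1 : ℝ) + s' ≤ E * s' := by
    have h1 : (d i1 : ℝ) ≤ 1 / ε * s' := by
      rw [one_div, inv_mul_eq_div, le_div_iff₀ hε]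
      linarith
    rw [hE, add_mul]
    linarith
  have hs'b : s' ≤ d j1 + n * d k1 := by
    have h1 : s' = ((d j1 : ℝ) - 1) + ∑ l ∈ (univ.erase i1).erase j1, ((d l : ℝ) - 1) :=
      (Finset.add_sum_erase (univ.erase i1) (fun l => (d l : ℝ) - 1) hj1m).symm
    have h2 : ∑ l ∈ (univ.erase i1).erase j1, ((d l : ℝ) - 1) ≤
        ((univ.erase i1).erase j1).card • (d k1 : ℝ) := by
      refine Finset.sum_le_card_nsmul _ _ _ fun l hl => ?_
      have h3 : (d l : ℝ) ≤ d k1 := by exact_mod_cast hk1 l hl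
      linarith
    have h3 : (((univ.erase i1).erase j1).card : ℝ) ≤ n := by
      have h4 : ((univ.erase i1).erase j1 : Finset (Fin n)).card ≤ (univ : Finset (Fin n)).card :=
        Finset.card_le_card ((Finset.erase_subset _ _).trans (Finset.erase_subset _ _))
      rw [Finset.card_univ, Fintype.card_fin] at h4
      exact_mod_cast h4
    rw [nsmul_eq_mul] at h2
    have h5 : (((univ.erase i1).erase j1).card : ℝ) * (d k1 : ℝ) ≤ n * d k1 := by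
      gcongr
    linarith
  have hcK : 2 * K' ≤ (d k1 : ℝ) := by
    have h1 : ⌈2 * K'⌉₊ ≤ d k1 := (le_trans (le_max_right _ _) (le_max_left _ _)).trans hcm
    exact (Nat.le_ceil _).trans (by exact_mod_cast h1)
  have hcb' : (d k1 : ℝ) ≤ d j1 := by exact_mod_cast hcb
  have hbc : (d j1 : ℝ) * d k1 < K' * (d j1 + n * d k1) := by
    have h1 : (K : ℝ) * ((d i1 : ℝ) + s') ≤ K' * s' := by
      rw [hK']
      have h2 : (K : ℝ) * ((d i1 : ℝ) + s') ≤ ((K : ℝ) + 1) * (E * s') := by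
        have h3 : (0 : ℝ) ≤ K := Nat.cast_nonneg K
        have h4 : 0 ≤ (d i1 : ℝ) + s' := by linarith
        calc (K : ℝ) * ((d i1 : ℝ) + s') ≤ ((K : ℝ) + 1) * ((d i1 : ℝ) + s') := by nlinarith
          _ ≤ ((K : ℝ) + 1) * (E * s') := by gcongr
      linarith
    have h5 : K' * s' ≤ K' * (d j1 + n * d k1) := by gcongr
    linarith
  have hbn : (d j1 : ℝ) < 2 * K' * n := by
    have h1 : K' * (d j1 : ℝ) ≤ (d j1 : ℝ) * d k1 / 2 := by nlinarith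
    have h2 : (d j1 : ℝ) * d k1 / 2 < K' * n * d k1 := by linarith
    have h3 : (0 : ℝ) < d k1 := by linarith
    have h4 : (d j1 : ℝ) * d k1 < 2 * K' * n * d k1 := by linarith
    exact lt_of_mul_lt_mul_right h4 h3.le
  have hn₀n : n₀ ≤ n := by
    have h1 : ⌈2 * K' * n₀⌉₊ ≤ d k1 := (le_max_right _ _).trans hcm
    have h2 : 2 * K' * n₀ ≤ (d k1 : ℝ) := (Nat.le_ceil _).trans (by exact_mod_cast h1)
    have h3 : 2 * K' * (n₀ : ℝ) < 2 * K' * n := by linarith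
    have h4 : (n₀ : ℝ) < n := lt_of_mul_lt_mul_left h3 (by linarith)
    exact_mod_cast h4.le
  have hn1 : 1 ≤ n := hn₀1.trans hn₀n
  have hn1r : (1 : ℝ) ≤ n := by exact_mod_cast hn1
  have hSC : ((1 + ∑ l, (d l - 1) : ℕ) : ℝ) ≤ ((n * C * 2) ^ 2 : ℕ) := by
    rw [hSn]
    push_cast
    have h1 : (d i1 : ℝ) + s' ≤ E * (d j1 + n * d k1) := by
      refine hSE.trans ?_
      gcongr
    have h2 : (d j1 : ℝ) + n * d k1 ≤ (1 + n) * (2 * K' * n) := by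
      have h3 : (n : ℝ) * d k1 ≤ n * (2 * K' * n) := by
        gcongr
        linarith
      nlinarith
    have h4 : E * (d j1 + n * d k1) ≤ E * ((1 + n) * (2 * K' * n)) := by gcongr
    have h5 : E * ((1 + n) * (2 * K' * n)) = (E * (2 * K')) * ((1 + n) * n) := by ring
    have h6 : (E * (2 * K')) * ((1 + n) * n) ≤ (C : ℝ) * ((1 + n) * n) := by gcongr
    have hCr1 : (1 : ℝ) ≤ C := by exact_mod_cast hC1
    have h7 : (C : ℝ) * ((1 + n) * n) ≤ ((n : ℝ) * C * 2) ^ 2 := by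
      have h8 : ((1 : ℝ) + n) * n ≤ 4 * n ^ 2 := by nlinarith
      have h9 : (C : ℝ) ≤ C ^ 2 := by nlinarith
      calc (C : ℝ) * ((1 + n) * n) ≤ C ^ 2 * (4 * n ^ 2) := by gcongr
        _ = ((n : ℝ) * C * 2) ^ 2 := by ring
    linarith
  have hSC' : 1 + ∑ l, (d l - 1) ≤ (n * C * 2) ^ 2 := by exact_mod_cast hSC
  have hkey := hn₀ n hn₀n 2 le_rfl
  have hfin : (1 + ∑ l, (d l - 1)) ^ (4 * k) ≤ ∏ l, d l := by
    calc (1 + ∑ l, (d l - 1)) ^ (4 * k) ≤ ((n * C * 2) ^ 2) ^ (4 * k) :=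
          Nat.pow_le_pow_left hSC' _
      _ = (n * C * 2) ^ (4 * (2 * k)) := by
          rw [← pow_mul]
          congr 1
          ring
      _ ≤ 2 ^ n := hkey
      _ ≤ ∏ l, d l := by
          have := Finset.pow_card_le_prod (univ : Finset (Fin n)) d 2 (fun l _ => hd l)
          simpa using this
  refine hmono n d _ _ ?_ (hmany n k d hn1 hk4 hd hfin)
  have := hL0
  gcongr

end Pool.Agent.H24.TR
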