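import Mathlib
import Pool.Agent.H24.TR.Glue

set_option autoImplicit false

/-!
# Gluing lemma for balanced formats
-/

namespace Pool.Agent.H24.TR

theorem glue_bal (P : (n : ℕ) → (Fin n → ℕ) → ℝ → Prop) (L : (n : ℕ) → (Fin n → ℕ) → ℝ)
    (hL : ∀ n d, 0 ≤ L n d) (hmono : ∀ n d a b, a ≤ b → P n d a → P n d b) (C : ℕ) (hC : 1 ≤ C)
    (h1 : ∀ (n : ℕ) (d : Fin n → ℕ) (a : ℕ), 6 ≤ n → 40 ≤ a → (∀ i, a ≤ d i ∧ d i ≤ C * a) →
      P n d ((1 + 6 * (C : ℝ) ^ 3 * (n : ℝ) ^ 2 / a) * L n d))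
    (h2 : ∀ (n k : ℕ) (d : Fin n → ℕ), 1 ≤ n → 4 ≤ k → (∀ i, 2 ≤ d i) →
      (1 + ∑ i, (d i - 1)) ^ (4 * k) ≤ ∏ i, d i → P n d ((1 + 2 / (k : ℝ) ^ 2) * L n d))
    (ε : ℝ) (hε : 0 < ε) :
    ∃ N₀ : ℕ, ∀ (n : ℕ) (d : Fin n → ℕ), 6 ≤ n → (∀ i, 2 ≤ d i) → (∀ i j, d i ≤ C * d j) →
      N₀ ≤ ∏ i, d i → P n d ((1 + ε) * L n d) := by
  obtain ⟨k, hk4, hk⟩ := glue_k ε hε
  obtain ⟨n₀, hn₀1, hn₀⟩ := glue_key k C
  set a₀ : ℕ := max 40 ⌈6 * (C : ℝ) ^ 3 * (n₀ : ℝ) ^ 2 / ε⌉₊ with ha₀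
  refine ⟨(C * a₀) ^ n₀ + 1, fun n d hn hd hbal hN => ?_⟩
  obtain ⟨i₀, -, hi₀⟩ := Finset.exists_min_image (Finset.univ : Finset (Fin n)) d
    ⟨⟨0, by omega⟩, Finset.mem_univ _⟩
  have hmin : ∀ i, d i₀ ≤ d i := fun i => hi₀ i (Finset.mem_univ i)
  have hmax : ∀ i, d i ≤ C * d i₀ := fun i => hbal i i₀
  have ha2 : 2 ≤ d i₀ := hd i₀
  rcases le_or_gt n₀ n with hc | hc
  · refine hmono n d _ _ ?_ (h2 n k d (by omega) hk4 hd ?_)
    · have := hL n d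
      gcongr
    · have h3 := hn₀ n hc (d i₀) ha2
      have h4 : (d i₀) ^ n ≤ ∏ i, d i := by
        have := Finset.pow_card_le_prod (Finset.univ : Finset (Fin n)) d (d i₀)
          (fun i _ => hmin i)
        simpa using this
      refine le_trans (le_trans (Nat.pow_le_pow_left ?_ _) h3) h4
      have h5 : ∑ i, (d i - 1) ≤ n * (C * d i₀ - 1) := by
        have := Finset.sum_le_card_nsmul (Finset.univ : Finset (Fin n)) (fun i => d i - 1)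
          (C * d i₀ - 1) (fun i _ => Nat.sub_le_sub_right (hmax i) 1)
        simpa using this
      have h6 : 1 ≤ C * d i₀ := Nat.mul_pos hC (by omega)
      obtain ⟨m, hm⟩ : ∃ m, C * d i₀ = m + 1 := ⟨C * d i₀ - 1, by omega⟩
      rw [hm, Nat.add_sub_cancel] at h5
      rw [mul_assoc, hm, Nat.mul_add, Nat.mul_one]
      omega
  · have haa : a₀ < d i₀ := by
      by_contra hlt
      push Not at hlt
      have h3 : ∏ i, d i ≤ (C * a₀) ^ n := by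
        have := Finset.prod_le_pow_card (Finset.univ : Finset (Fin n)) d (C * a₀)
          (fun i _ => (hmax i).trans (Nat.mul_le_mul_left C hlt))
        simpa using this
      have h4 : (C * a₀) ^ n ≤ (C * a₀) ^ n₀ := by
        refine Nat.pow_le_pow_right (Nat.mul_pos hC ?_) hc.le
        have : 40 ≤ a₀ := le_max_left _ _
        omega
      omega
    have h40 : 40 ≤ d i₀ := le_trans (le_max_left _ _) haa.le
    have hqr : 6 * (C : ℝ) ^ 3 * (n₀ : ℝ) ^ 2 / ε ≤ ((d i₀ : ℕ) : ℝ) :=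
      (Nat.le_ceil _).trans (by exact_mod_cast (le_trans (le_max_right _ _) haa.le))
    have hq0 : (0 : ℝ) < ((d i₀ : ℕ) : ℝ) := by exact_mod_cast (by omega : 0 < d i₀)
    have hnn : (n : ℝ) ≤ n₀ := by exact_mod_cast hc.le
    refine hmono n d _ _ ?_ (h1 n d (d i₀) hn h40 (fun i => ⟨hmin i, hmax i⟩))
    have h5 : 6 * (C : ℝ) ^ 3 * (n : ℝ) ^ 2 / ((d i₀ : ℕ) : ℝ) ≤ ε := by
      rw [div_le_iff₀ hε] at hqr
      rw [div_le_iff₀ hq0]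
      have h7 : 6 * (C : ℝ) ^ 3 * (n : ℝ) ^ 2 ≤ 6 * (C : ℝ) ^ 3 * (n₀ : ℝ) ^ 2 := by gcongr
      linarith
    have := hL n d
    gcongr

end Pool.Agent.H24.TR
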