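import Mathlib
import Pool.Agent.H24.TR.GlueBal

set_option autoImplicit false

/-!
# Gluing lemma for balanced formats, with five factors
-/

namespace Pool.Agent.H24.TR

theorem glue_bal5 (P : (n : ℕ) → (Fin n → ℕ) → ℝ → Prop) (L : (n : ℕ) → (Fin n → ℕ) → ℝ)
    (hL : ∀ n d, 0 ≤ L n d) (hmono : ∀ n d a b, a ≤ b → P n d a → P n d b) (C : ℕ) (hC : 1 ≤ C)
    (h1 : ∀ (n : ℕ) (d : Fin n → ℕ) (a : ℕ), 6 ≤ n → 40 ≤ a → (∀ i, a ≤ d i ∧ d i ≤ C * a) →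
      P n d ((1 + 6 * (C : ℝ) ^ 3 * (n : ℝ) ^ 2 / a) * L n d))
    (h5 : ∀ (d : Fin 5 → ℕ) (a : ℕ), 10000 ≤ a → (∀ i, a ≤ d i ∧ d i ≤ C * a) →
      P 5 d ((1 + 100 * (C : ℝ) ^ 3 / Real.sqrt a) * L 5 d))
    (h2 : ∀ (n k : ℕ) (d : Fin n → ℕ), 1 ≤ n → 4 ≤ k → (∀ i, 2 ≤ d i) →
      (1 + ∑ i, (d i - 1)) ^ (4 * k) ≤ ∏ i, d i → P n d ((1 + 2 / (k : ℝ) ^ 2) * L n d))
    (ε : ℝ) (hε : 0 < ε) :
    ∃ N₀ : ℕ, ∀ (n : ℕ) (d : Fin n → ℕ), 5 ≤ n → (∀ i, 2 ≤ d i) → (∀ i j, d i ≤ C * d j) →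
      N₀ ≤ ∏ i, d i → P n d ((1 + ε) * L n d) := by
  obtain ⟨N₁, hN₁⟩ := glue_bal P L hL hmono C hC h1 h2 ε hε
  set a₁ : ℕ := max 10000 ⌈(100 * (C : ℝ) ^ 3 / ε) ^ 2⌉₊ with ha₁
  refine ⟨max N₁ ((C * a₁) ^ 5 + 1), fun n d hn hd hbal hN => ?_⟩
  rcases Nat.lt_or_ge 5 n with hc | hc
  · exact hN₁ n d hc hd hbal (le_trans (le_max_left _ _) hN)
  · obtain rfl : n = 5 := by omega
    obtain ⟨i₀, -, hi₀⟩ := Finset.exists_min_image (Finset.univ : Finset (Fin 5)) d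
      ⟨⟨0, by omega⟩, Finset.mem_univ _⟩
    have hmin : ∀ i, d i₀ ≤ d i := fun i => hi₀ i (Finset.mem_univ i)
    have hmax : ∀ i, d i ≤ C * d i₀ := fun i => hbal i i₀
    have hN' : (C * a₁) ^ 5 + 1 ≤ ∏ i, d i := le_trans (le_max_right _ _) hN
    have haa : a₁ < d i₀ := by
      by_contra hlt
      push Not at hlt
      have h3 : ∏ i, d i ≤ (C * a₁) ^ 5 := by
        have := Finset.prod_le_pow_card (Finset.univ : Finset (Fin 5)) d (C * a₁)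
          (fun i _ => (hmax i).trans (Nat.mul_le_mul_left C hlt))
        simpa using this
      omega
    have h10 : 10000 ≤ d i₀ := le_trans (le_max_left _ _) haa.le
    have hqr : (100 * (C : ℝ) ^ 3 / ε) ^ 2 ≤ ((d i₀ : ℕ) : ℝ) :=
      (Nat.le_ceil _).trans (by exact_mod_cast (le_trans (le_max_right _ _) haa.le))
    have hC0 : (0 : ℝ) < C := by exact_mod_cast (by omega : 0 < C)
    have hs : 100 * (C : ℝ) ^ 3 / ε ≤ Real.sqrt ((d i₀ : ℕ) : ℝ) := Real.le_sqrt_of_sq_le hqr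
    have hs0 : 0 < Real.sqrt ((d i₀ : ℕ) : ℝ) := lt_of_lt_of_le (by positivity) hs
    refine hmono 5 d _ _ ?_ (h5 d (d i₀) h10 (fun i => ⟨hmin i, hmax i⟩))
    have h6 : 100 * (C : ℝ) ^ 3 / Real.sqrt ((d i₀ : ℕ) : ℝ) ≤ ε := by
      rw [div_le_iff₀ hε] at hs
      rw [div_le_iff₀ hs0]
      linarith
    have := hL 5 d
    gcongr

end Pool.Agent.H24.TR
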