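import Mathlib
import Pool.Agent.H24.TR.Glue

set_option autoImplicit false

/-!
# Gluing lemma: all formats
-/

namespace Pool.Agent.H24.TR

open Finset

/-- a subfamily whose product is at least `K`, but not much larger -/
theorem exists_sub {ι : Type} [DecidableEq ι] (d : ι → ℕ) (K m₃ : ℕ) (hK : 1 ≤ K) (hm : 1 ≤ m₃)
    (S : Finset ι) (hd : ∀ l ∈ S, d l ≤ m₃) (hS : K ≤ ∏ l ∈ S, d l) :
    ∃ J : Finset ι, J ⊆ S ∧ K ≤ ∏ l ∈ J, d l ∧ ∏ l ∈ J, d l ≤ K * m₃ := by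
  induction S using Finset.induction_on with
  | empty =>
    refine ⟨∅, subset_rfl, hS, ?_⟩
    rw [Finset.prod_empty]
    exact Nat.mul_pos hK hm
  | insert a S' ha ih =>
    by_cases h : K ≤ ∏ l ∈ S', d l
    · obtain ⟨J, hJ, h1, h2⟩ := ih (fun l hl => hd l (mem_insert_of_mem hl)) h
      exact ⟨J, hJ.trans (subset_insert _ _), h1, h2⟩
    · push Not at h
      refine ⟨insert a S', subset_rfl, hS, ?_⟩
      rw [Finset.prod_insert ha, mul_comm]
      exact Nat.mul_le_mul h.le (hd a (mem_insert_self _ _))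

theorem glue_two (P : (n : ℕ) → (Fin n → ℕ) → ℝ → Prop) (L : (n : ℕ) → (Fin n → ℕ) → ℝ)
    (hL : ∀ n d, L n d = (∏ i, (d i : ℝ)) / (∑ i, ((d i : ℝ) - 1) + 1))
    (hmono : ∀ n d a b, a ≤ b → P n d a → P n d b)
    (hthree : ∀ ε : ℝ, 0 < ε → ∃ m : ℕ, ∀ (n : ℕ) (d : Fin n → ℕ) (i j k : Fin n), i ≠ j → i ≠ k →
      j ≠ k → (∀ l, 2 ≤ d l) → m ≤ d i → m ≤ d j → m ≤ d k → P n d ((1 + ε) * L n d))
    (hmany : ∀ (n k : ℕ) (d : Fin n → ℕ), 1 ≤ n → 4 ≤ k → (∀ i, 2 ≤ d i) →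
      (1 + ∑ i, (d i - 1)) ^ (4 * k) ≤ ∏ i, d i → P n d ((1 + 2 / (k : ℝ) ^ 2) * L n d))
    (htwo : ∀ ε : ℝ, 0 < ε → ∃ K : ℕ, ∀ (n : ℕ) (d : Fin n → ℕ) (i j : Fin n) (J : Finset (Fin n)),
      i ≠ j → i ∉ J → j ∉ J → (∀ l, 2 ≤ d l) → d i ≤ d j → K ≤ ∏ l ∈ J, d l →
      K ≤ ∏ l ∈ ((univ.erase i).erase j) \ J, d l → (∏ l ∈ J, d l) + 1 ≤ d j →
      K * (∑ l ∈ (univ.erase i).erase j, (d l - 1)) ≤ d i + d j → P n d ((1 + ε) * L n d))
    (ε : ℝ) (hε : 0 < ε) : ∃ m : ℕ, ∀ (n : ℕ) (d : Fin n → ℕ), 2 ≤ n → (∀ l, 2 ≤ d l) →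
      (∀ i j, i ≠ j → m * (d i * d j) ≤ ∏ l, d l) → P n d ((1 + ε) * L n d) := by
  classical
  obtain ⟨m₃', hthree⟩ := hthree ε hε
  obtain ⟨K', htwo⟩ := htwo ε hε
  obtain ⟨k, hk4, hk⟩ := glue_k ε hε
  set m₃ : ℕ := max m₃' 2 with hm₃
  have hm₃' : m₃' ≤ m₃ := le_max_left _ _
  have hm₃2 : 2 ≤ m₃ := le_max_right _ _
  set K : ℕ := max K' 1 with hK
  have hK' : K' ≤ K := le_max_left _ _
  have hK1 : 1 ≤ K := le_max_right _ _
  obtain ⟨n₀, hn₀1, hn₀⟩ := glue_key k ((K + 1) * m₃)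
  set N₁ : ℕ := max n₀ (2 * m₃ + 2) with hN₁
  refine ⟨max (K * (K * m₃)) (m₃ ^ N₁), ?_⟩
  set m : ℕ := max (K * (K * m₃)) (m₃ ^ N₁) with hm
  intro n d hn hd hmd
  have hn0 : 0 < n := by omega
  obtain ⟨j, -, hj⟩ := Finset.exists_max_image (univ : Finset (Fin n)) d ⟨⟨0, hn0⟩, mem_univ _⟩
  have hne : ((univ : Finset (Fin n)).erase j).Nonempty := by
    rw [← Finset.card_pos, Finset.card_erase_of_mem (mem_univ _), Finset.card_univ,
      Fintype.card_fin]
    omega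
  obtain ⟨i, him, hi⟩ := Finset.exists_max_image ((univ : Finset (Fin n)).erase j) d hne
  have hij : i ≠ j := (mem_erase.1 him).1
  have hdij : d i ≤ d j := hj i (mem_univ _)
  set S : Finset (Fin n) := ((univ : Finset (Fin n)).erase i).erase j with hS
  have hiS : i ∉ S := fun h => (mem_erase.1 (mem_erase.1 h).2).1 rfl
  have hjS : j ∉ S := fun h => (mem_erase.1 h).1 rfl
  have hjm : j ∈ (univ : Finset (Fin n)).erase i := mem_erase.2 ⟨hij.symm, mem_univ _⟩
  have hSle : ∀ l ∈ S, d l ≤ d i := fun l hl =>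
    hi l (mem_erase.2 ⟨(mem_erase.1 hl).1, mem_univ _⟩)
  by_cases hcase : ∃ l ∈ S, m₃ ≤ d l
  · obtain ⟨l, hl, hlm⟩ := hcase
    have h1 : m₃ ≤ d i := hlm.trans (hSle l hl)
    refine hthree n d i j l hij ?_ ?_ hd (hm₃'.trans h1) (hm₃'.trans (h1.trans hdij))
      (hm₃'.trans hlm)
    · rintro rfl
      exact hiS hl
    · rintro rfl
      exact hjS hl
  push Not at hcase
  have hprod : ∏ l, d l = d i * (d j * ∏ l ∈ S, d l) := by
    rw [Finset.mul_prod_erase _ _ hjm, Finset.mul_prod_erase _ _ (mem_univ _)]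
  have hE : m ≤ ∏ l ∈ S, d l := by
    have h1 := hmd i j hij
    rw [hprod] at h1
    have h2 : 0 < d i * d j := Nat.mul_pos (by linarith [hd i]) (by linarith [hd j])
    have h3 : d i * d j * m ≤ d i * d j * ∏ l ∈ S, d l := by
      calc d i * d j * m = m * (d i * d j) := by ring
        _ ≤ d i * (d j * ∏ l ∈ S, d l) := h1
        _ = d i * d j * ∏ l ∈ S, d l := by ring
    exact Nat.le_of_mul_le_mul_left h3 h2
  have hcard : S.card + 2 = n := by
    rw [hS, Finset.card_erase_of_mem hjm, Finset.card_erase_of_mem (mem_univ _),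
      Finset.card_univ, Fintype.card_fin]
    omega
  have hEle : ∏ l ∈ S, d l ≤ m₃ ^ S.card := Finset.prod_le_pow_card _ _ _ fun l hl => (hcase l hl).le
  have hN : N₁ ≤ S.card := by
    by_contra hlt
    push Not at hlt
    have h1 : m₃ ^ S.card < m₃ ^ N₁ := Nat.pow_lt_pow_right (by omega) hlt
    have h2 : m₃ ^ N₁ ≤ m := le_max_right _ _
    omega
  have hsum1 : S.card ≤ ∑ l ∈ S, (d l - 1) := by
    rw [Finset.card_eq_sum_ones]
    refine Finset.sum_le_sum fun l _ => ?_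
    have := hd l
    omega
  have hsum2 : ∑ l ∈ S, (d l - 1) ≤ S.card * m₃ := by
    have := Finset.sum_le_card_nsmul S (fun l => d l - 1) m₃ (fun l hl => by
      have := hcase l hl
      show d l - 1 ≤ m₃
      omega)
    simpa using this
  by_cases hcase2 : K * (∑ l ∈ S, (d l - 1)) ≤ d i + d j
  · obtain ⟨J, hJS, hJ1, hJ2⟩ := exists_sub d K m₃ hK1 (by omega) S (fun l hl => (hcase l hl).le) (by
      have h1 : K * 1 ≤ K * (K * m₃) := Nat.mul_le_mul_left _ (Nat.mul_pos hK1 (by omega))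
      have h2 : K * (K * m₃) ≤ m := le_max_left _ _
      omega)
    have hJ3 : K ≤ ∏ l ∈ S \ J, d l := by
      by_contra hlt
      push Not at hlt
      have h1 : (∏ l ∈ S \ J, d l) * ∏ l ∈ J, d l = ∏ l ∈ S, d l := Finset.prod_sdiff hJS
      have h2 : (∏ l ∈ S \ J, d l) * ∏ l ∈ J, d l < K * (K * m₃) := by
        refine Nat.mul_lt_mul_of_lt_of_le hlt hJ2 ?_
        exact Nat.mul_pos hK1 (by omega)
      have h3 : K * (K * m₃) ≤ m := le_max_left _ _
      omega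
    refine htwo n d i j J hij (fun h => hiS (hJS h)) (fun h => hjS (hJS h)) hd hdij
      (hK'.trans hJ1) (hK'.trans hJ3) ?_ ((Nat.mul_le_mul_right _ hK').trans hcase2)
    have h1 : K * (2 * m₃ + 2) ≤ K * ∑ l ∈ S, (d l - 1) := by
      refine Nat.mul_le_mul_left _ (le_trans ?_ hsum1)
      exact (le_max_right _ _).trans hN
    have h2 : K * (2 * m₃ + 2) = 2 * (K * m₃) + 2 * K := by ring
    omega
  · push Not at hcase2
    have hL0 : 0 ≤ L n d := by
      rw [hL]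
      refine div_nonneg (Finset.prod_nonneg fun l _ => Nat.cast_nonneg _) ?_
      have : 0 ≤ ∑ l, ((d l : ℝ) - 1) := Finset.sum_nonneg fun l _ => by
        have : (2 : ℝ) ≤ d l := by exact_mod_cast hd l
        linarith
      linarith
    have hsum : ∑ l, (d l - 1) = (d i - 1) + ((d j - 1) + ∑ l ∈ S, (d l - 1)) := by
      rw [Finset.add_sum_erase (univ.erase i) (fun l => d l - 1) hjm,
        Finset.add_sum_erase univ (fun l => d l - 1) (mem_univ i)]
    have hfin : (1 + ∑ l, (d l - 1)) ^ (4 * k) ≤ ∏ l, d l := by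
      calc (1 + ∑ l, (d l - 1)) ^ (4 * k) ≤ (n * ((K + 1) * m₃) * 2) ^ (4 * k) := by
            refine Nat.pow_le_pow_left ?_ _
            rw [hsum]
            have h1 : K * ∑ l ∈ S, (d l - 1) ≤ K * (S.card * m₃) := Nat.mul_le_mul_left _ hsum2
            have h2 : S.card * m₃ ≤ n * m₃ := Nat.mul_le_mul_right _ (by omega)
            have h3 : K * (S.card * m₃) ≤ K * (n * m₃) := Nat.mul_le_mul_left _ h2
            have h4 : n * ((K + 1) * m₃) * 2 = 2 * (K * (n * m₃)) + 2 * (n * m₃) := by ring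
            have h5 := hd i
            have h6 := hd j
            omega
        _ ≤ 2 ^ n := hn₀ n (by
            have h1 : n₀ ≤ N₁ := le_max_left _ _
            omega) 2 le_rfl
        _ ≤ ∏ l, d l := by
            have := Finset.pow_card_le_prod (univ : Finset (Fin n)) d 2 (fun l _ => hd l)
            simpa using this
    refine hmono n d _ _ ?_ (hmany n k d (by omega) hk4 hd hfin)
    have := hL0
    gcongr

end Pool.Agent.H24.TR
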