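import Mathlib

/-!
Label maps for words: for factors of size at most `2 ^ e` there are additive labels in an
elementary abelian 2-group of size at most `2 ^ e * (2 ^ e - 1) * n`, for which all the words at
distance one from a given word have different labels, which are also different from the label of
the given word.
-/

set_option autoImplicit false

open Function

namespace Pool.Agent.H93.TR

/-- neighbouring words have different labels -/
def Lab {ι : Type} [DecidableEq ι] {α : ι → Type} {A : Type} (f : ((i : ι) → α i) → A) : Prop :=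
  (∀ (x : (i : ι) → α i) (i : ι) (b : α i), b ≠ x i → f (update x i b) ≠ f x) ∧
  (∀ (x : (i : ι) → α i) (i i' : ι) (b : α i) (b' : α i'), b ≠ x i → b' ≠ x i' →
    f (update x i b) = f (update x i' b') → (⟨i, b⟩ : Sigma α) = ⟨i', b'⟩)

private theorem geo (q k : ℕ) : q * ∑ i ∈ Finset.range k, (q + 1) ^ i + 1 = (q + 1) ^ k := by
  induction k with
  | zero => simp
  | succ k ih =>
    rw [Finset.sum_range_succ, mul_add, pow_succ, ← ih]
    ring

private theorem sum_update {ι : Type} [Fintype ι] [DecidableEq ι] {α : ι → Type} {A : Type}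
    [AddCommGroup A] (φ : (i : ι) → α i → A) (x : (i : ι) → α i) (i : ι) (b : α i) :
    ∑ j, φ j (update x i b j) = ∑ j, φ j (x j) + (φ i b - φ i (x i)) := by
  rw [← Finset.add_sum_erase _ _ (Finset.mem_univ i),
    ← Finset.add_sum_erase Finset.univ (fun j => φ j (x j)) (Finset.mem_univ i)]
  have h : ∑ j ∈ Finset.univ.erase i, φ j (update x i b j) =
      ∑ j ∈ Finset.univ.erase i, φ j (x j) := by
    refine Finset.sum_congr rfl fun j hj => ?_
    rw [update_of_ne (Finset.ne_of_mem_erase hj)]
  rw [h, update_self]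
  abel

theorem exists_lab (e : ℕ) (he : 1 ≤ e) {ι : Type} [Fintype ι] [DecidableEq ι] [Nonempty ι]
    (α : ι → Type) [∀ i, Fintype (α i)] (h : ∀ i, Fintype.card (α i) ≤ 2 ^ e) :
    ∃ (A : Type) (_ : AddCommGroup A) (_ : Fintype A) (φ : (i : ι) → α i → A),
      (∀ g : A, g + g = 0) ∧ Fintype.card A ≤ 2 ^ e * (2 ^ e - 1) * Fintype.card ι ∧
      Lab fun x : (i : ι) → α i => ∑ i, φ i (x i) := by
  classical
  have he0 : e ≠ 0 := by omega
  have hF : Nat.card (GaloisField 2 e) = 2 ^ e := GaloisField.card 2 e he0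
  have : Finite (GaloisField 2 e) := Nat.finite_of_card_ne_zero (by rw [hF]; positivity)
  have : Fintype (GaloisField 2 e) := Fintype.ofFinite _
  have hFc : Fintype.card (GaloisField 2 e) = 2 ^ e := by rw [← Nat.card_eq_fintype_card, hF]
  -- the dimension
  have hex : ∃ k, Fintype.card ι ≤ ∑ i ∈ Finset.range k, (2 ^ e) ^ i := by
    refine ⟨Fintype.card ι, ?_⟩
    calc Fintype.card ι = ∑ i ∈ Finset.range (Fintype.card ι), 1 := by simp
      _ ≤ _ := Finset.sum_le_sum fun i _ => Nat.one_le_pow _ _ (by positivity)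
  obtain ⟨k, hk, hmin⟩ : ∃ k, Fintype.card ι ≤ ∑ i ∈ Finset.range k, (2 ^ e) ^ i ∧
      ∀ l < k, ∑ i ∈ Finset.range l, (2 ^ e) ^ i < Fintype.card ι :=
    ⟨Nat.find hex, Nat.find_spec hex, fun l hl => not_le.1 (Nat.find_min hex hl)⟩
  have ht : 1 ≤ Fintype.card ι := Fintype.card_pos
  have hk0 : k ≠ 0 := by
    rintro rfl
    simp at hk
  obtain ⟨l, rfl⟩ : ∃ l, k = l + 1 := ⟨k - 1, by omega⟩
  have hl := hmin l (Nat.lt_succ_self l)
  have hQ : 2 ≤ 2 ^ e := by
    calc 2 = 2 ^ 1 := rfl
      _ ≤ 2 ^ e := Nat.pow_le_pow_right (by omega) he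
  obtain ⟨q, hq⟩ : ∃ q, 2 ^ e = q + 1 := ⟨2 ^ e - 1, by omega⟩
  have hq1 : 1 ≤ q := by omega
  -- the vectors
  have hcard : Nat.card (Projectivization (GaloisField 2 e) (Fin (l + 1) → GaloisField 2 e)) =
      ∑ i ∈ Finset.range (l + 1), (2 ^ e) ^ i := by
    rw [Projectivization.card_of_finrank (GaloisField 2 e) (Fin (l + 1) → GaloisField 2 e)
      (n := l + 1) (by simp), hF]
  have : Finite (Projectivization (GaloisField 2 e) (Fin (l + 1) → GaloisField 2 e)) :=
    Nat.finite_of_card_ne_zero (by rw [hcard]; omega)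
  have : Fintype (Projectivization (GaloisField 2 e) (Fin (l + 1) → GaloisField 2 e)) :=
    Fintype.ofFinite _
  obtain ⟨σ⟩ : Nonempty (ι ↪ Projectivization (GaloisField 2 e)
      (Fin (l + 1) → GaloisField 2 e)) := by
    refine Function.Embedding.nonempty_of_card_le ?_
    rw [← Nat.card_eq_fintype_card (α := Projectivization (GaloisField 2 e)
      (Fin (l + 1) → GaloisField 2 e)), hcard]
    exact hk
  have hβ : ∀ i, Nonempty (α i ↪ GaloisField 2 e) := fun i =>
    Function.Embedding.nonempty_of_card_le (by rw [hFc]; exact h i)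
  let β : (i : ι) → (α i ↪ GaloisField 2 e) := fun i => (hβ i).some
  let u : ι → (Fin (l + 1) → GaloisField 2 e) := fun i => (σ i).rep
  have hu0 : ∀ i, u i ≠ 0 := fun i => (σ i).rep_nonzero
  have hu : ∀ (c c' : GaloisField 2 e) (i i' : ι), c ≠ 0 → c • u i = c' • u i' → i = i' := by
    intro c c' i i' hc hcc
    apply σ.injective
    rw [← (σ i).mk_rep, ← (σ i').mk_rep, Projectivization.mk_eq_mk_iff']
    refine ⟨c⁻¹ * c', ?_⟩
    change (c⁻¹ * c') • u i' = u i
    rw [mul_smul, ← hcc, smul_smul, inv_mul_cancel₀ hc, one_smul]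
  refine ⟨Fin (l + 1) → GaloisField 2 e, inferInstance, inferInstance,
    fun i a => β i a • u i, ?_, ?_, ?_, ?_⟩
  · intro g
    funext j
    exact CharTwo.add_self_eq_zero (g j)
  · have hA : Fintype.card (Fin (l + 1) → GaloisField 2 e) = (q + 1) ^ (l + 1) := by
      rw [Fintype.card_fun, hFc, Fintype.card_fin, hq]
    rw [hA, hq]
    rw [hq] at hl
    have h1 := geo q l
    have h2 : (q + 1) ^ l ≤ q * Fintype.card ι := by
      rw [← h1]
      have h3 : q * (∑ i ∈ Finset.range l, (q + 1) ^ i + 1) ≤ q * Fintype.card ι :=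
        Nat.mul_le_mul_left q hl
      rw [mul_add, mul_one] at h3
      omega
    calc (q + 1) ^ (l + 1) = (q + 1) * (q + 1) ^ l := by rw [pow_succ, mul_comm]
      _ ≤ (q + 1) * (q * Fintype.card ι) := Nat.mul_le_mul_left _ h2
      _ = (q + 1) * (q + 1 - 1) * Fintype.card ι := by rw [Nat.add_sub_cancel, mul_assoc]
  · intro x i b hb heq
    change ∑ j, β j (update x i b j) • u j = ∑ j, β j (x j) • u j at heq
    rw [sum_update (fun j a => β j a • u j) x i b] at heq
    have h1 : (β i b - β i (x i)) • u i = 0 := by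
      rw [sub_smul]
      exact left_eq_add.1 heq.symm
    rcases smul_eq_zero.1 h1 with h2 | h2
    · exact hb ((β i).injective (sub_eq_zero.1 h2))
    · exact hu0 i h2
  · intro x i i' b b' hb hb' heq
    change ∑ j, β j (update x i b j) • u j = ∑ j, β j (update x i' b' j) • u j at heq
    rw [sum_update (fun j a => β j a • u j) x i b, sum_update (fun j a => β j a • u j) x i' b']
      at heq
    have h1 : (β i b - β i (x i)) • u i = (β i' b' - β i' (x i')) • u i' := by
      rw [sub_smul, sub_smul]
      exact add_left_cancel heq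
    have hc : β i b - β i (x i) ≠ 0 := fun h2 => hb ((β i).injective (sub_eq_zero.1 h2))
    have hii := hu _ _ i i' hc h1
    subst hii
    have h3 : β i b = β i b' := by
      have h4 : ((β i b - β i (x i)) - (β i b' - β i (x i))) • u i = 0 := by
        rw [sub_smul, h1, sub_self]
      rcases smul_eq_zero.1 h4 with h5 | h5
      · have h6 : β i b - β i b' = 0 := by
          rw [← h5]; ring
        exact sub_eq_zero.1 h6
      · exact absurd h5 (hu0 i)
    rw [(β i).injective h3]

end Pool.Agent.H93.TR
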